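import Pool.Agent.Helper53_Dir.Final

set_option autoImplicit false

namespace Pool.Agent.Results.MP_cd0b2b_an.DirichletRegular

/-- A complex subalgebra `A` of `C(X, ℂ)` (it contains the constants) is a *uniform algebra on `X`*
if it is closed in the uniform norm and separates the points of `X`. -/
structure IsUniformAlgebra {X : Type} [TopologicalSpace X] [CompactSpace X]
    (A : Subalgebra ℂ C(X, ℂ)) : Prop where
  isClosed : IsClosed (A : Set C(X, ℂ))
  separates : ∀ x y : X, x ≠ y → ∃ f ∈ A, f x ≠ f y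

/-- `A` is *Dirichlet on `X`*: the real parts of the functions in `A` are uniformly dense in the
real continuous functions on `X`. -/
def IsDirichlet {X : Type} [TopologicalSpace X] [CompactSpace X]
    (A : Subalgebra ℂ C(X, ℂ)) : Prop :=
  Dense {u : C(X, ℝ) | ∃ f ∈ A, ∀ x, u x = (f x).re}

/-- `A` is *regular on `X`*: for every closed `K ⊆ X` and every point `p` outside `K` some `f ∈ A`
satisfies `f p = 1` and `f = 0` on `K`. -/
def IsRegularOn {X : Type} [TopologicalSpace X] [CompactSpace X]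
    (A : Subalgebra ℂ C(X, ℂ)) : Prop :=
  ∀ K : Set X, IsClosed K → ∀ p : X, p ∉ K → ∃ f ∈ A, f p = 1 ∧ ∀ x ∈ K, f x = 0

/-- **Answer to Q1 (yes).** There is a nontrivial uniform algebra on `[0,1]` which is both
Dirichlet and regular on `[0,1]`. -/
theorem result : ∃ A : Subalgebra ℂ C(unitInterval, ℂ),
    IsUniformAlgebra A ∧ A ≠ ⊤ ∧ IsDirichlet A ∧ IsRegularOn A := by
  obtain ⟨W⟩ := Pool.Agent.Helper53_Dir.exists_tower
  obtain ⟨q⟩ := Pool.Agent.Helper53_Dir.exists_quot W
  refine ⟨q.alg, ⟨q.isClosed_alg, fun x y hxy => ?_⟩, q.ne_top, ?_, ?_⟩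
  · obtain ⟨f, hf, h1, h2⟩ := q.regular (K := {y}) isClosed_singleton hxy
    refine ⟨f, hf, ?_⟩
    rw [h1, h2 y rfl]
    exact one_ne_zero
  · intro u
    rw [Metric.mem_closure_iff]
    intro ε hε
    obtain ⟨f, hf, h⟩ := q.dirichlet u (half_pos hε)
    refine ⟨⟨fun x => (f x).re, Complex.continuous_re.comp f.continuous⟩,
      ⟨f, hf, fun x => rfl⟩, ?_⟩
    refine lt_of_le_of_lt ((ContinuousMap.dist_le (half_pos hε).le).2 fun x => ?_)
      (half_lt_self hε)
    rw [dist_comm, Real.dist_eq]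
    exact h x
  · intro K hK p hp
    exact q.regular hK hp

end Pool.Agent.Results.MP_cd0b2b_an.DirichletRegular
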